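import Mathlib

set_option autoImplicit false
open MvPolynomial Filter Topology

namespace Pool.Agent.Results.MP_dcd72d_ag.DenseMu

/-- components of the `n`-th iterate of the polynomial map `f` of the affine plane -/
noncomputable def iter (f : Fin 2 → MvPolynomial (Fin 2) ℂ) : ℕ → Fin 2 → MvPolynomial (Fin 2) ℂ
  | 0 => fun i => X i
  | n + 1 => fun i => bind₁ (iter f n) (f i)

/-- algebraic degree -/
noncomputable def deg1 (g : Fin 2 → MvPolynomial (Fin 2) ℂ) : ℕ :=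
  max (g 0).totalDegree (g 1).totalDegree

/-- topological degree: a general point has exactly `N` preimages -/
def HasTopDeg (g : Fin 2 → MvPolynomial (Fin 2) ℂ) (N : ℕ) : Prop :=
  ∃ P : MvPolynomial (Fin 2) ℂ, P ≠ 0 ∧ ∀ q : Fin 2 → ℂ, eval q P ≠ 0 →
    {p : Fin 2 → ℂ | ∀ i, eval p (g i) = q i}.encard = N

noncomputable def mon (a c d : ℕ) : Fin 2 → MvPolynomial (Fin 2) ℂ :=
  ![X 0 ^ a * X 1, X 0 ^ c * X 1 ^ d]

noncomputable def F (a c d : ℕ) (p : Fin 2 → ℂ) : Fin 2 → ℂ := ![p 0 ^ a * p 1, p 0 ^ c * p 1 ^ d]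

lemma iter0 (a c d n : ℕ) : iter (mon a c d) (n + 1) 0 =
    iter (mon a c d) n 0 ^ a * iter (mon a c d) n 1 := by
  simp [iter, mon]

lemma iter1 (a c d n : ℕ) : iter (mon a c d) (n + 1) 1 =
    iter (mon a c d) n 0 ^ c * iter (mon a c d) n 1 ^ d := by
  simp [iter, mon]

lemma eval_iter (a c d n : ℕ) (p : Fin 2 → ℂ) (i : Fin 2) :
    eval p (iter (mon a c d) n i) = (F a c d)^[n] p i := by
  induction n generalizing i with
  | zero => simp [iter]
  | succ n ih =>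
    rw [Function.iterate_succ_apply']
    fin_cases i
    · simp [iter0, F, ih]
    · simp [iter1, F, ih]

lemma iter_ne (a c d n : ℕ) : iter (mon a c d) n 0 ≠ 0 ∧ iter (mon a c d) n 1 ≠ 0 := by
  induction n with
  | zero => simp [iter]
  | succ n ih =>
    rw [iter0, iter1]
    exact ⟨mul_ne_zero (pow_ne_zero _ ih.1) ih.2,
      mul_ne_zero (pow_ne_zero _ ih.1) (pow_ne_zero _ ih.2)⟩

lemma td_pow (g : MvPolynomial (Fin 2) ℂ) (hg : g ≠ 0) (k : ℕ) :
    (g ^ k).totalDegree = k * g.totalDegree := by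
  induction k with
  | zero => simp
  | succ k ih => rw [pow_succ, totalDegree_mul_of_isDomain (pow_ne_zero _ hg) hg, ih]; ring

lemma deg_bounds (a c d : ℕ) (ρ : ℝ) (hρ : (a : ℝ) < ρ) (he : (ρ - a) * (ρ - d) = c) (n : ℕ) :
    (min 1 (ρ - a)⁻¹ * ρ ^ n ≤ ((iter (mon a c d) n 0).totalDegree : ℝ) ∧
      ((iter (mon a c d) n 0).totalDegree : ℝ) ≤ max 1 (ρ - a)⁻¹ * ρ ^ n) ∧
    (min 1 (ρ - a)⁻¹ * ρ ^ n * (ρ - a) ≤ ((iter (mon a c d) n 1).totalDegree : ℝ) ∧
      ((iter (mon a c d) n 1).totalDegree : ℝ) ≤ max 1 (ρ - a)⁻¹ * ρ ^ n * (ρ - a)) := by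
  have h0 : 0 < ρ - a := by linarith
  induction n with
  | zero =>
    simp only [iter, totalDegree_X, pow_zero, mul_one, Nat.cast_one]
    refine ⟨⟨min_le_left _ _, le_max_left _ _⟩, ?_, ?_⟩
    · have := min_le_right 1 (ρ - a)⁻¹
      calc _ ≤ (ρ - a)⁻¹ * (ρ - a) := by gcongr
        _ = 1 := by field_simp
    · have := le_max_right 1 (ρ - a)⁻¹
      calc (1 : ℝ) = (ρ - a)⁻¹ * (ρ - a) := by field_simp
        _ ≤ _ := by gcongr
  | succ n ih =>
    obtain ⟨h1, h2⟩ := iter_ne a c d n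
    rw [iter0, iter1, totalDegree_mul_of_isDomain (pow_ne_zero _ h1) h2,
      totalDegree_mul_of_isDomain (pow_ne_zero _ h1) (pow_ne_zero _ h2), td_pow _ h1, td_pow _ h1,
      td_pow _ h2]
    push_cast
    obtain ⟨⟨i1, i2⟩, i3, i4⟩ := ih
    set x : ℝ := ((iter (mon a c d) n 0).totalDegree : ℝ)
    set y : ℝ := ((iter (mon a c d) n 1).totalDegree : ℝ)
    set m : ℝ := min 1 (ρ - a)⁻¹ * ρ ^ n with hm
    set M : ℝ := max 1 (ρ - a)⁻¹ * ρ ^ n with hM
    have e1 : min 1 (ρ - a)⁻¹ * ρ ^ (n + 1) = m * ρ := by rw [hm]; ring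
    have e2 : max 1 (ρ - a)⁻¹ * ρ ^ (n + 1) = M * ρ := by rw [hM]; ring
    rw [e1, e2]
    have ha : (0 : ℝ) ≤ a := Nat.cast_nonneg a
    have hc : (0 : ℝ) ≤ c := Nat.cast_nonneg c
    have hd : (0 : ℝ) ≤ d := Nat.cast_nonneg d
    have f1 := mul_le_mul_of_nonneg_left i1 ha
    have f2 := mul_le_mul_of_nonneg_left i2 ha
    have f3 := mul_le_mul_of_nonneg_left i1 hc
    have f4 := mul_le_mul_of_nonneg_left i2 hc
    have f5 := mul_le_mul_of_nonneg_left i3 hd
    have f6 := mul_le_mul_of_nonneg_left i4 hd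
    refine ⟨⟨by nlinarith, by nlinarith⟩, ?_, ?_⟩
    · have : m * ρ * (ρ - a) = c * m + d * (m * (ρ - a)) := by rw [← he]; ring
      linarith
    · have : M * ρ * (ρ - a) = c * M + d * (M * (ρ - a)) := by rw [← he]; ring
      linarith

lemma tendsto_root {u : ℕ → ℝ} {ρ k K : ℝ} (hρ : 0 < ρ) (hk : 0 < k) (hK : 0 < K)
    (h : ∀ n, k * ρ ^ n ≤ u n ∧ u n ≤ K * ρ ^ n) :
    Tendsto (fun n : ℕ => u n ^ (1 / (n : ℝ))) atTop (𝓝 ρ) := by
  have lim : ∀ c : ℝ, 0 < c → Tendsto (fun n : ℕ => c ^ (1 / (n : ℝ)) * ρ) atTop (𝓝 ρ) := by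
    intro c hc
    have h1 : Tendsto (fun n : ℕ => c ^ (1 / (n : ℝ))) atTop (𝓝 (c ^ (0 : ℝ))) :=
      Filter.Tendsto.rpow tendsto_const_nhds tendsto_one_div_atTop_nhds_zero_nat (Or.inl hc.ne')
    simpa using h1.mul_const ρ
  have e : ∀ c : ℝ, 0 < c → ∀ n : ℕ, 0 < n →
      (c * ρ ^ n) ^ (1 / (n : ℝ)) = c ^ (1 / (n : ℝ)) * ρ := by
    intro c hc n hn
    rw [Real.mul_rpow hc.le (by positivity), one_div, Real.pow_rpow_inv_natCast hρ.le hn.ne']
  apply tendsto_of_tendsto_of_tendsto_of_le_of_le' (lim k hk) (lim K hK)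
  · filter_upwards [eventually_gt_atTop 0] with n hn
    rw [← e k hk n hn]
    exact Real.rpow_le_rpow (by positivity) (h n).1 (by positivity)
  · filter_upwards [eventually_gt_atTop 0] with n hn
    rw [← e K hK n hn]
    exact Real.rpow_le_rpow (le_trans (by positivity) (h n).1) (h n).2 (by positivity)

lemma fibre1 (a c d δ : ℕ) (ha : 0 < a) (hδ : 0 < δ) (h : δ + c = a * d) (q : Fin 2 → ℂ)
    (h0 : q 0 ≠ 0) (h1 : q 1 ≠ 0) :
    ∃ s : Finset (Fin 2 → ℂ), s.card = δ ∧ ∀ p, p ∈ s ↔ F a c d p = q := by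
  classical
  have hζ := Complex.isPrimitiveRoot_exp δ hδ.ne'
  have hw : q 0 ^ d / q 1 ≠ 0 := div_ne_zero (pow_ne_zero _ h0) h1
  have hcard : (Polynomial.nthRootsFinset δ (q 0 ^ d / q 1)).card = δ := by
    rw [Polynomial.nthRootsFinset_def, Multiset.toFinset_card_of_nodup (hζ.nthRoots_nodup hw),
      hζ.card_nthRoots, if_pos (IsAlgClosed.exists_pow_nat_eq _ hδ)]
  refine ⟨(Polynomial.nthRootsFinset δ (q 0 ^ d / q 1)).image (fun x => ![x, q 0 / x ^ a]), ?_, ?_⟩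
  · rw [Finset.card_image_of_injective _ (fun x y hxy => by simpa using congrFun hxy 0), hcard]
  · intro p
    simp only [Finset.mem_image, Polynomial.mem_nthRootsFinset hδ]
    constructor
    · rintro ⟨x, hx, rfl⟩
      have hx0 : x ≠ 0 := by
        rintro rfl
        rw [zero_pow hδ.ne'] at hx
        exact hw hx.symm
      funext i
      fin_cases i
      · simp [F]; field_simp
      · simp only [F, Fin.mk_one, Matrix.cons_val_one, Matrix.cons_val_zero, Matrix.cons_val_fin_one]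
        rw [div_pow, ← pow_mul, ← h, pow_add, hx]
        field_simp
    · intro hp
      have e0 : p 0 ^ a * p 1 = q 0 := by simpa [F] using congrFun hp 0
      have e1 : p 0 ^ c * p 1 ^ d = q 1 := by simpa [F] using congrFun hp 1
      have hp0 : p 0 ≠ 0 := by
        intro h; rw [h, zero_pow ha.ne', zero_mul] at e0; exact h0 e0.symm
      refine ⟨p 0, ?_, ?_⟩
      · rw [eq_div_iff h1, ← e0, ← e1, mul_pow, ← pow_mul, ← h]; ring
      · funext i
        fin_cases i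
        · simp
        · simp only [Fin.mk_one, Matrix.cons_val_one, Matrix.cons_val_fin_one]
          rw [← e0]; field_simp

lemma fibre (a c d δ : ℕ) (ha : 0 < a) (hδ : 0 < δ) (h : δ + c = a * d) (n : ℕ) :
    ∀ q : Fin 2 → ℂ, q 0 ≠ 0 → q 1 ≠ 0 →
    ∃ s : Finset (Fin 2 → ℂ), s.card = δ ^ n ∧ ∀ p, p ∈ s ↔ (F a c d)^[n] p = q := by
  classical
  induction n with
  | zero => intro q _ _; exact ⟨{q}, by simp, by simp⟩
  | succ n ih =>
    intro q h0 h1
    obtain ⟨s, hs, hs'⟩ := fibre1 a c d δ ha hδ h q h0 h1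
    have hT : ∀ p ∈ s, p 0 ≠ 0 ∧ p 1 ≠ 0 := by
      intro p hp
      have e0 : p 0 ^ a * p 1 = q 0 := by simpa [F] using congrFun ((hs' p).1 hp) 0
      constructor
      · intro h; rw [h, zero_pow ha.ne', zero_mul] at e0; exact h0 e0.symm
      · intro h; rw [h, mul_zero] at e0; exact h0 e0.symm
    choose! t ht ht' using ih
    refine ⟨s.biUnion t, ?_, ?_⟩
    · rw [Finset.card_biUnion]
      · rw [Finset.sum_congr rfl (fun p hp => ht p (hT p hp).1 (hT p hp).2)]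
        simp [hs, pow_succ, mul_comm]
      · intro p hp p' hp' hne
        rw [Function.onFun, Finset.disjoint_left]
        intro x hx hx'
        exact hne (((ht' p (hT p hp).1 (hT p hp).2 x).1 hx).symm.trans
          ((ht' p' (hT p' hp').1 (hT p' hp').2 x).1 hx'))
    · intro x
      rw [Finset.mem_biUnion, Function.iterate_succ_apply']
      constructor
      · rintro ⟨p, hp, hx⟩
        rw [(ht' p (hT p hp).1 (hT p hp).2 x).1 hx]
        exact (hs' p).1 hp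
      · intro hx
        have hp := (hs' _).2 hx
        exact ⟨_, hp, (ht' _ (hT _ hp).1 (hT _ hp).2 x).2 rfl⟩

lemma topdeg (a c d δ : ℕ) (ha : 0 < a) (hδ : 0 < δ) (h : δ + c = a * d) (n : ℕ) :
    HasTopDeg (iter (mon a c d) n) (δ ^ n) := by
  refine ⟨X 0 * X 1, mul_ne_zero (X_ne_zero _) (X_ne_zero _), fun q hq => ?_⟩
  simp only [map_mul, eval_X, mul_ne_zero_iff] at hq
  obtain ⟨s, hs, hs'⟩ := fibre a c d δ ha hδ h n q hq.1 hq.2
  have : {p : Fin 2 → ℂ | ∀ i, eval p (iter (mon a c d) n i) = q i} = (s : Set (Fin 2 → ℂ)) := by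
    ext p
    simp only [Set.mem_ofPred_eq, Finset.mem_coe, hs', eval_iter]
    exact funext_iff.symm
  rw [this, Set.encard_coe_eq_coe_finsetCard, hs]

theorem result : ∀ α β : ℝ, 0 ≤ α → α < β →
    ∃ (f : Fin 2 → MvPolynomial (Fin 2) ℂ) (N : ℕ → ℕ) (l₁ l₂ : ℝ),
      (∀ n, 0 < N n ∧ HasTopDeg (iter f n) (N n)) ∧
      Tendsto (fun n : ℕ => (deg1 (iter f n) : ℝ) ^ (1 / (n : ℝ))) atTop (𝓝 l₁) ∧
      Tendsto (fun n : ℕ => (N n : ℝ) ^ (1 / (n : ℝ))) atTop (𝓝 l₂) ∧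
      α < l₂ / l₁ ∧ l₂ / l₁ < β := by
  intro α β hα hαβ
  obtain ⟨a, ha⟩ := exists_nat_gt (β + 1 / (β - α))
  have hba : 0 < β - α := by linarith
  have hq : 0 < 1 / (β - α) := by positivity
  have haβ : β < a := by linarith
  have ha0 : (0 : ℝ) < a := by linarith
  -- take d = a
  set c : ℕ := ⌊((a : ℝ) - β) ^ 2⌋₊ + 1 with hc
  have hc1 : ((a : ℝ) - β) ^ 2 < c := by rw [hc]; push_cast; exact Nat.lt_floor_add_one _
  have hc2 : (c : ℝ) < ((a : ℝ) - α) ^ 2 := by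
    have h1 : (c : ℝ) ≤ ((a : ℝ) - β) ^ 2 + 1 := by
      rw [hc]; push_cast
      have := Nat.floor_le (sq_nonneg ((a : ℝ) - β))
      linarith
    have h2 : 1 < (a - β) * (β - α) := by
      have : 1 / (β - α) < a - β := by linarith
      rwa [div_lt_iff₀ hba] at this
    nlinarith
  have hc3 : c < a * a := by
    have : (c : ℝ) < a * a := by nlinarith
    exact_mod_cast this
  have hcpos : (0 : ℝ) < c := lt_of_le_of_lt (sq_nonneg _) hc1
  set s : ℝ := Real.sqrt c with hs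
  have hs0 : 0 < s := Real.sqrt_pos.2 hcpos
  have hss : s * s = c := Real.mul_self_sqrt hcpos.le
  have hs1 : (a : ℝ) - β < s := by
    apply lt_of_pow_lt_pow_left₀ 2 hs0.le; nlinarith
  have hs2 : s < (a : ℝ) - α := by
    apply lt_of_pow_lt_pow_left₀ 2 (by linarith); nlinarith
  obtain ⟨δ, hδ⟩ : ∃ δ, δ + c = a * a := ⟨a * a - c, by omega⟩
  have hδ0 : 0 < δ := by omega
  have hδr : (δ : ℝ) = (a - s) * (a + s) := by
    have : (δ : ℝ) + c = a * a := by exact_mod_cast hδ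
    nlinarith
  have hapos : 0 < a := by exact_mod_cast ha0
  have hρ : 0 < (a : ℝ) + s := by linarith
  refine ⟨mon a c a, fun n => δ ^ n, a + s, δ, fun n => ⟨pow_pos hδ0 n, topdeg a c a δ hapos hδ0 hδ n⟩,
    ?_, ?_, ?_, ?_⟩
  · have hb := deg_bounds a c a (a + s) (by linarith) (by rw [← hss]; ring)
    simp only [add_sub_cancel_left] at hb
    apply tendsto_root (k := min 1 s⁻¹) (K := max 1 s⁻¹ * (1 + s)) hρ (by positivity)
      (by positivity)
    intro n
    obtain ⟨⟨h1, h2⟩, h3, h4⟩ := hb n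
    unfold deg1
    push_cast
    refine ⟨h1.trans (le_max_left _ _), max_le ?_ ?_⟩
    · have : 0 ≤ max 1 s⁻¹ * (a + s) ^ n * s := by positivity
      nlinarith
    · have : 0 ≤ max 1 s⁻¹ * (a + s) ^ n := by positivity
      nlinarith
  · apply tendsto_root (k := 1) (K := 1) (by exact_mod_cast hδ0) one_pos one_pos
    intro n
    simp
  · rw [hδr, mul_div_assoc, div_self hρ.ne']; linarith
  · rw [hδr, mul_div_assoc, div_self hρ.ne']; linarith

end Pool.Agent.Results.MP_dcd72d_ag.DenseMu
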